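import Pool.Agent.TH494.CQ.Main

set_option autoImplicit false

namespace Pool.Agent.Results.MP_8ecd01_al.RationalCentre

open Pool.Agent.TH494.CQ

/-- The centre conjecture for closed convex subsets fails for `K = ℚ` and `G = Sp₄ⁿ`, `n ≥ 1`, over
every algebraically closed field of characteristic two: the rational building of `G` contains a
closed convex subset of full dimension `2 n - 1`, inside one closed chamber, which is not a
subcomplex and not completely reducible, and which is stabilized by a building automorphism without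
a fixed point in it. -/
theorem _root_.Pool.Agent.Results.MP_8ecd01_al.RationalCentre.result (k : Type) [Field k]
    [IsAlgClosed k] [CharP k 2] (n : ℕ) (hn : 0 < n) :
    ∃ S : Set (Pt k n), S.Nonempty ∧ FullDim S ∧
      (∃ b, (∀ i, IsFrame (b i)) ∧ S ⊆ face b ∅ ∅) ∧ Conv S ∧ Closed S ∧
      ¬ IsSubcomplex S ∧ ¬ IsCR S ∧ (∀ c, ¬ IsCentre S c) ∧
      ∃ φ : Equiv.Perm (Pt k n), IsAut φ ∧ φ '' S = S ∧ ∀ p ∈ S, φ p ≠ p := by
  have h2 : (2 : k) = 0 := by
    have := CharP.cast_eq_zero k 2
    exact_mod_cast this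
  haveI : NeZero n := ⟨hn.ne'⟩
  obtain ⟨S, h1, h3, h4, h5, h6, h7, φ, a1, a2, a3⟩ := main (n := n) h2 fun a =>
    IsAlgClosed.exists_pow_nat_eq a (by norm_num)
  have hne : S.Nonempty := by
    by_contra hcon
    rw [Set.not_nonempty_iff_eq_empty] at hcon
    exact h7 fun p hp => by rw [hcon] at hp; exact absurd hp (Set.notMem_empty p)
  exact ⟨S, hne, h1, h3, h4, h5, h6, h7, fun c hc => a3 c hc.1 (hc.2 φ a1 a2), φ, a1, a2, a3⟩

end Pool.Agent.Results.MP_8ecd01_al.RationalCentre
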